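import Pool.Agent.H45.EG3.S3
import Pool.Agent.H40.EGC.SGE
import Pool.Agent.H94.EGC.LXO

/-!
# EG3: existence and comparison of segments; the shadow of a segment
-/

set_option autoImplicit false

namespace Pool.EG3

open Finset
open Pool.EGC (lx sl cj Gs LXOStmt h40_mx)

/-- Membership in the capped vectors. -/
theorem h40_mem {m : ℕ} (c : Fin m → ℕ∞) (d : ℕ) (x : Fin m → ℕ) :
    x ∈ Mo c d ↔ ∑ i, x i = d ∧ ∀ i, (x i : ℕ∞) < c i := by
  classical
  rw [Mo, Finset.mem_filter, Finset.mem_piAntidiag]
  constructor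
  · rintro ⟨⟨h1, _⟩, h2⟩
    exact ⟨h1, h2⟩
  · rintro ⟨h1, h2⟩
    exact ⟨⟨h1, fun i _ => Finset.mem_univ i⟩, h2⟩

/-- Membership in the shadow. -/
theorem h40_up {m : ℕ} (c : Fin m → ℕ∞) (d : ℕ) (A : Finset (Fin m → ℕ)) (y : Fin m → ℕ) :
    y ∈ up c d A ↔ y ∈ Mo c (d + 1) ∧ ∃ x ∈ A, ∃ i, y = x + Pi.single i 1 := by
  classical
  rw [up, Finset.mem_filter]

/-- SGE. -/
theorem t_sge : SGEStmt := by
  classical
  have hL : LXOStmt := Pool.EGC.t_lxo
  intro m c d
  constructor
  · intro s
    induction s with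
    | zero =>
      intro _
      exact ⟨∅, ⟨Finset.empty_subset _, fun x hx => absurd hx (Finset.notMem_empty x)⟩, rfl⟩
    | succ s ih =>
      intro hs
      obtain ⟨A, hA, hc⟩ := ih (by omega)
      have h1 : (Mo c d \ A).Nonempty := by
        rw [Finset.nonempty_iff_ne_empty]
        intro h
        rw [Finset.sdiff_eq_empty_iff_subset] at h
        have := Finset.card_le_card h
        omega
      obtain ⟨x, hx, h2⟩ := h40_mx hL _ h1
      rw [Finset.mem_sdiff] at hx
      refine ⟨insert x A, ⟨Finset.insert_subset hx.1 hA.1, fun z hz y hy hzy => ?_⟩, ?_⟩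
      · rw [Finset.mem_insert] at hz ⊢
        by_cases hyA : y ∈ A
        · exact Or.inr hyA
        · rcases hz with hz | hz
          · rcases h2 y (Finset.mem_sdiff.2 ⟨hy, hyA⟩) with h3 | h3
            · rw [hz] at hzy
              exact absurd ((hL m x y x).2.1 hzy h3) (hL m x x x).1
            · exact Or.inl h3
          · exact absurd (hA.2 z hz y hy hzy) hyA
      · rw [Finset.card_insert_of_notMem hx.2, hc]
  · intro A B hA hB hc a ha
    by_contra haB
    have h1 : B ⊆ A := by
      intro b hb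
      rcases (hL m a b a).2.2.1 with h2 | h2 | h2
      · exact hA.2 a ha b (hB.1 hb) h2
      · rw [← h2]
        exact ha
      · exact absurd (hB.2 b hb a (hA.1 ha) h2) haB
    have h2 : B ⊂ A := ⟨h1, fun h => haB (h ha)⟩
    have := Finset.card_lt_card h2
    omega

/-- SUP. -/
theorem t_sup : SUPStmt := by
  classical
  have hL : LXOStmt := Pool.EGC.t_lxo
  intro m c d A hA
  refine ⟨Finset.filter_subset _ _, fun z hz y hy hzy => ?_⟩
  obtain ⟨hz1, x, hx, i, hzx⟩ := (h40_up c d A z).1 hz
  obtain ⟨hy1, hy2⟩ := (h40_mem c (d + 1) y).1 hy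
  obtain ⟨hx1, hx2⟩ := (h40_mem c d x).1 (hA.1 hx)
  have hne : (Finset.univ.filter fun q => y q ≠ 0).Nonempty := by
    rw [Finset.nonempty_iff_ne_empty]
    intro h
    have h1 : ∑ q, y q = 0 := Finset.sum_eq_zero fun q _ => by
      by_contra hq
      have : q ∈ Finset.univ.filter fun q => y q ≠ 0 :=
        Finset.mem_filter.2 ⟨Finset.mem_univ q, hq⟩
      rw [h] at this
      exact Finset.notMem_empty q this
    omega
  obtain ⟨k, hk, hmax⟩ := Finset.exists_max_image _ (fun q => q) hne
  rw [Finset.mem_filter] at hk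
  have hk0 : y k ≠ 0 := hk.2
  have hkq : ∀ q, k < q → y q = 0 := by
    intro q hq
    by_contra h
    exact absurd (hmax q (Finset.mem_filter.2 ⟨Finset.mem_univ q, h⟩)) (not_le.2 hq)
  obtain ⟨y', hy'⟩ : ∃ y' : Fin m → ℕ, y' = fun q => if q = k then y k - 1 else y q := ⟨_, rfl⟩
  have hyy : y = y' + Pi.single k 1 := by
    funext q
    rw [hy', Pi.add_apply]
    by_cases h : q = k
    · subst h
      rw [if_pos rfl, Pi.single_eq_same]
      omega
    · rw [if_neg h, Pi.single_eq_of_ne h, add_zero]
  have hsum : ∑ q, y' q = d := by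
    have h1 : ∑ q, y q = ∑ q, y' q + 1 := by
      conv_lhs => rw [hyy]
      simp only [Pi.add_apply]
      rw [Finset.sum_add_distrib, Finset.sum_pi_single']
      simp
    omega
  have hle : ∀ q, y' q ≤ y q := by
    intro q
    rw [hyy, Pi.add_apply]
    exact Nat.le_add_right _ _
  have hyM : y' ∈ Mo c d := (h40_mem c d y').2
    ⟨hsum, fun q => lt_of_le_of_lt (Nat.cast_le.2 (hle q)) (hy2 q)⟩
  have hyq : ∀ q, k < q → y' q = 0 := fun q hq => by
    have := hle q
    rw [hkq q hq] at this
    omega
  have hyA : y' ∈ A := by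
    rcases (hL m x y' x).2.2.1 with h1 | h1 | h1
    · exact hA.2 x hx y' hyM h1
    · rw [← h1]
      exact hx
    · exfalso
      rcases lt_or_ge k i with hki | hki
      · obtain ⟨p, p1, p2⟩ := h1
        have hpk : p < k := by
          by_contra hcon
          have hkp : k ≤ p := not_lt.1 hcon
          have h2 : ∑ q, y' q < ∑ q, x q := by
            refine Finset.sum_lt_sum (fun q _ => ?_) ⟨p, Finset.mem_univ p, p2⟩
            rcases lt_trichotomy q p with h3 | h3 | h3
            · exact (p1 q h3).le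
            · rw [h3]
              exact p2.le
            · rw [hyq q (lt_of_le_of_lt hkp h3)]
              exact Nat.zero_le _
          omega
        have h2 : lx y z := by
          rw [hyy, hzx]
          refine ⟨p, fun q hq => ?_, ?_⟩
          · rw [Pi.add_apply, Pi.add_apply, Pi.single_eq_of_ne (hq.trans hpk).ne,
              Pi.single_eq_of_ne (hq.trans (hpk.trans hki)).ne, p1 q hq]
          · rw [Pi.add_apply, Pi.add_apply, Pi.single_eq_of_ne hpk.ne,
              Pi.single_eq_of_ne (hpk.trans hki).ne]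
            exact p2
        exact (hL m y y y).1 ((hL m y z y).2.1 h2 hzy)
      · have h2 : lx (y' + Pi.single i 1) z := by
          rw [hzx]
          exact (hL m y' x (Pi.single i 1)).2.2.2.1.2 h1
        have h3 : lx y z := by
          rcases hki.lt_or_eq with h4 | h4
          · have h5 := (hL m y' y' y').2.2.2.2 i k h4
            rw [← hyy] at h5
            exact (hL m y (y' + Pi.single i 1) z).2.1 h5 h2
          · rw [h4, ← hyy] at h2
            exact h2
        exact (hL m y y y).1 ((hL m y z y).2.1 h3 hzy)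
  exact (h40_up c d A y).2 ⟨hy, y', hyA, k, hyy⟩

end Pool.EG3
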